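import Pool.Agent.helper45.AG.Quo

/-!
# Polynomial loops

Helper file for `MP_e88537_al.AlgebraicLoops`.
-/

set_option autoImplicit false

universe u v w

namespace Pool.Agent.helper45.AG

open Pool.Agent.Results.MP_e88537_al.NilpotentLoops

variable {k : Type v} [Field k] {n : ℕ} {Q : Type u} [Mul Q] [One Q] [IsLoop Q]

/-- The three projections of `Q × Q × Q`. -/
def pj (a : Fin 3) (t : Q × Q × Q) : Q := ![t.1, t.2.1, t.2.2] a

/-- Polynomial functions on `Q × Q × Q`. -/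
noncomputable def Phi (c : Q → Fin n → k) : MvPolynomial (Fin 3 × Fin n) k →ₐ[k] (Q × Q × Q → k) :=
  MvPolynomial.aeval (fun (j : Fin 3 × Fin n) (t : Q × Q × Q) => c (pj j.1 t) j.2)

theorem Phi_apply (c : Q → Fin n → k) (p : MvPolynomial (Fin 3 × Fin n) k) (t : Q × Q × Q) :
    Phi c p t = MvPolynomial.eval (fun j => c (pj j.1 t) j.2) p := by
  have h := MvPolynomial.comp_aeval_apply (R := k)
    (fun (j : Fin 3 × Fin n) (t : Q × Q × Q) => c (pj j.1 t) j.2)
    (Pi.evalAlgHom k (fun _ : Q × Q × Q => k) t) p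
  exact h

/-- Restriction to one factor: a polynomial function of three variables is a polynomial function of each. -/
theorem slice (c : Q → Fin n → k) (p : MvPolynomial (Fin 3 × Fin n) k) (a : Fin 3) (t : Q × Q × Q) :
    ∃ q : MvPolynomial (Fin n) k, ∀ x : Q, MvPolynomial.eval (c x) q =
      MvPolynomial.eval (fun j : Fin 3 × Fin n => if j.1 = a then c x j.2 else c (pj j.1 t) j.2) p := by
  refine ⟨MvPolynomial.aeval (fun j : Fin 3 × Fin n => if j.1 = a then MvPolynomial.X j.2 else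
    MvPolynomial.C (c (pj j.1 t) j.2)) p, fun x => ?_⟩
  have h := MvPolynomial.comp_aeval_apply (R := k) (fun j : Fin 3 × Fin n => if j.1 = a then
    (MvPolynomial.X j.2 : MvPolynomial (Fin n) k) else MvPolynomial.C (c (pj j.1 t) j.2))
    (MvPolynomial.aeval (c x) : MvPolynomial (Fin n) k →ₐ[k] k) p
  have h2 : ∀ q : MvPolynomial (Fin n) k, MvPolynomial.aeval (c x) q = MvPolynomial.eval (c x) q := by
    intro q
    rw [MvPolynomial.aeval_eq_eval]
  rw [h2] at h
  rw [h]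
  have h3 : ∀ (F : Fin 3 × Fin n → k), MvPolynomial.aeval F p = MvPolynomial.eval F p := by
    intro F
    rw [MvPolynomial.aeval_eq_eval]
  rw [h3]
  congr 1
  congr 1
  funext j
  split_ifs
  · simp
  · simp

/-- Irreducibility in the sense of Zariski. -/
def Irr (c : Q → Fin n → k) : Prop := ∀ p q : MvPolynomial (Fin n) k,
  (∀ x : Q, MvPolynomial.eval (c x) p * MvPolynomial.eval (c x) q = 0) →
    (∀ x : Q, MvPolynomial.eval (c x) p = 0) ∨ (∀ x : Q, MvPolynomial.eval (c x) q = 0)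

theorem both (c : Q → Fin n → k) (hirr : Irr c) (p q : MvPolynomial (Fin n) k) (x y : Q)
    (hx : MvPolynomial.eval (c x) p ≠ 0) (hy : MvPolynomial.eval (c y) q ≠ 0) :
    ∃ z : Q, MvPolynomial.eval (c z) p ≠ 0 ∧ MvPolynomial.eval (c z) q ≠ 0 := by
  by_contra hcon
  push Not at hcon
  rcases hirr p q (fun z => by
    by_cases hz : MvPolynomial.eval (c z) p = 0
    · rw [hz, zero_mul]
    · rw [hcon z hz, mul_zero]) with h | h
  · exact hx (h x)
  · exact hy (h y)

theorem dom (c : Q → Fin n → k) (hirr : Irr c) : NoZeroDivisors (Phi c).range := by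
  constructor
  rintro ⟨_, p, rfl⟩ ⟨_, q, rfl⟩ h
  by_contra hcon
  push Not at hcon
  obtain ⟨h1, h2⟩ := hcon
  have e1 : ∃ t : Q × Q × Q, Phi c p t ≠ 0 := by
    by_contra hc
    push Not at hc
    exact h1 (Subtype.ext (funext hc))
  have e2 : ∃ t : Q × Q × Q, Phi c q t ≠ 0 := by
    by_contra hc
    push Not at hc
    exact h2 (Subtype.ext (funext hc))
  obtain ⟨⟨x1, y1, z1⟩, hp⟩ := e1
  obtain ⟨⟨x2, y2, z2⟩, hq⟩ := e2
  have hpq : ∀ t, Phi c p t * Phi c q t = 0 := by
    intro t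
    have := congrArg (fun a : (Phi c).range => (a : Q × Q × Q → k) t) h
    exact this
  -- first variable
  obtain ⟨p1, hp1⟩ := slice c p 0 (x1, y1, z1)
  obtain ⟨q1, hq1⟩ := slice c q 0 (x2, y2, z2)
  have k1 : ∀ x, MvPolynomial.eval (c x) p1 = Phi c p (x, y1, z1) := by
    intro x
    rw [hp1, Phi_apply]
    congr 1; congr 1; funext ⟨a, j⟩
    fin_cases a <;> simp [pj]
  have l1 : ∀ x, MvPolynomial.eval (c x) q1 = Phi c q (x, y2, z2) := by
    intro x
    rw [hq1, Phi_apply]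
    congr 1; congr 1; funext ⟨a, j⟩
    fin_cases a <;> simp [pj]
  obtain ⟨x, hx1, hx2⟩ := both c hirr p1 q1 x1 x2 (by rw [k1]; exact hp) (by rw [l1]; exact hq)
  rw [k1] at hx1
  rw [l1] at hx2
  -- second variable
  obtain ⟨p2, hp2⟩ := slice c p 1 (x, y1, z1)
  obtain ⟨q2, hq2⟩ := slice c q 1 (x, y2, z2)
  have k2 : ∀ y, MvPolynomial.eval (c y) p2 = Phi c p (x, y, z1) := by
    intro y
    rw [hp2, Phi_apply]
    congr 1; congr 1; funext ⟨a, j⟩
    fin_cases a <;> simp [pj]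
  have l2 : ∀ y, MvPolynomial.eval (c y) q2 = Phi c q (x, y, z2) := by
    intro y
    rw [hq2, Phi_apply]
    congr 1; congr 1; funext ⟨a, j⟩
    fin_cases a <;> simp [pj]
  obtain ⟨y, hy1, hy2⟩ := both c hirr p2 q2 y1 y2 (by rw [k2]; exact hx1) (by rw [l2]; exact hx2)
  rw [k2] at hy1
  rw [l2] at hy2
  -- third variable
  obtain ⟨p3, hp3⟩ := slice c p 2 (x, y, z1)
  obtain ⟨q3, hq3⟩ := slice c q 2 (x, y, z2)
  have k3 : ∀ z, MvPolynomial.eval (c z) p3 = Phi c p (x, y, z) := by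
    intro z
    rw [hp3, Phi_apply]
    congr 1; congr 1; funext ⟨a, j⟩
    fin_cases a <;> simp [pj]
  have l3 : ∀ z, MvPolynomial.eval (c z) q3 = Phi c q (x, y, z) := by
    intro z
    rw [hq3, Phi_apply]
    congr 1; congr 1; funext ⟨a, j⟩
    fin_cases a <;> simp [pj]
  obtain ⟨z, hz1, hz2⟩ := both c hirr p3 q3 z1 z2 (by rw [k3]; exact hy1) (by rw [l3]; exact hy2)
  rw [k3] at hz1
  rw [l3] at hz2
  rcases mul_eq_zero.mp (hpq (x, y, z)) with h | h
  · exact hz1 h
  · exact hz2 h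

/-- Irreducible polynomial SUF IP loops are Moufang. -/
theorem algebraic_moufang (D : PL k n Q) (hirr : Irr D.c) (hip : IP Q) (hsuf : SUF Q) : Moufang Q := by
  have hnz : NoZeroDivisors (Phi D.c).range := dom D.c hirr
  have hne : Nonempty (Q × Q × Q) := ⟨(1, 1, 1)⟩
  have hdom : IsDomain (Phi D.c).range := NoZeroDivisors.to_isDomain _
  have hnoe : IsNoetherianRing (Phi D.c).range := AlgHom.isNoetherianRing_range _
  have hM : ⨅ j : ℕ, M ((1, 1, 1) : Q × Q × Q) (Phi D.c).range ^ j = ⊥ :=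
    Ideal.iInf_pow_eq_bot_of_isDomain _ M_ne_top
  have key := moufang_G (D := D) hip hsuf hM
  have hmem : ∀ (a : Fin 3) (i : Fin n), (fun t : Q × Q × Q => D.c (pj a t) i) ∈ (Phi D.c).range := by
    intro a i
    refine ⟨MvPolynomial.X (a, i), ?_⟩
    show Phi D.c (MvPolynomial.X (a, i)) = _
    rw [Phi, MvPolynomial.aeval_X]
  have hb : ∀ a : Fin 3, pj a ((1, 1, 1) : Q × Q × Q) = 1 := by
    intro a
    fin_cases a <;> rfl
  let g : Fin 3 → G D ((1, 1, 1) : Q × Q × Q) (Phi D.c).range := fun a => ⟨pj a, hmem a, hb a⟩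
  intro x y z
  have h := congrArg (fun w : G D ((1, 1, 1) : Q × Q × Q) (Phi D.c).range => w.f (x, y, z)) (key (g 0) (g 1) (g 2))
  exact h

end Pool.Agent.helper45.AG
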