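import Mathlib

/-!
# Polynomial maps and two ideals

Helper file for `MP_e88537_al.AlgebraicLoops`.
-/

set_option autoImplicit false

universe u v

namespace Pool.Agent.helper45.AG

variable {k : Type u} [CommRing k] {A : Type v} [CommRing A] [Algebra k A]

/-- If all variables agree modulo an ideal, so do the values of a polynomial. -/
theorem aeval_congr {σ : Type} (I : Ideal A) (f g : σ → A) (h : ∀ i, f i - g i ∈ I)
    (p : MvPolynomial σ k) : MvPolynomial.aeval f p - MvPolynomial.aeval g p ∈ I := by
  induction p using MvPolynomial.induction_on with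
  | C a => simp
  | add p q hp hq =>
    rw [map_add, map_add]
    have : (MvPolynomial.aeval f p + MvPolynomial.aeval f q) -
        (MvPolynomial.aeval g p + MvPolynomial.aeval g q) =
        (MvPolynomial.aeval f p - MvPolynomial.aeval g p) +
        (MvPolynomial.aeval f q - MvPolynomial.aeval g q) := by ring
    rw [this]
    exact I.add_mem hp hq
  | mul_X p i hp =>
    rw [map_mul, map_mul, MvPolynomial.aeval_X, MvPolynomial.aeval_X]
    have : MvPolynomial.aeval f p * f i - MvPolynomial.aeval g p * g i =
        (MvPolynomial.aeval f p - MvPolynomial.aeval g p) * f i +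
        MvPolynomial.aeval g p * (f i - g i) := by ring
    rw [this]
    exact I.add_mem (I.mul_mem_right _ hp) (I.mul_mem_left _ (h i))

/-- Mixed second difference of a polynomial: if `f - f' ∈ I` and `g - g' ∈ J`, then
`p (f, g) - p (f', g) - p (f, g') + p (f', g') ∈ I * J`. -/
theorem aeval_mixed {σ τ : Type} (I J : Ideal A) (f f' : σ → A) (g g' : τ → A)
    (hf : ∀ i, f i - f' i ∈ I) (hg : ∀ i, g i - g' i ∈ J) (p : MvPolynomial (σ ⊕ τ) k) :
    (MvPolynomial.aeval (Sum.elim f g) p - MvPolynomial.aeval (Sum.elim f' g) p) -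
      (MvPolynomial.aeval (Sum.elim f g') p - MvPolynomial.aeval (Sum.elim f' g') p) ∈ I * J := by
  have hI : ∀ (q : MvPolynomial (σ ⊕ τ) k) (h : τ → A),
      MvPolynomial.aeval (Sum.elim f h) q - MvPolynomial.aeval (Sum.elim f' h) q ∈ I := by
    intro q h
    apply aeval_congr
    rintro (i | i)
    · exact hf i
    · simp
  have hJ : ∀ (q : MvPolynomial (σ ⊕ τ) k) (h : σ → A),
      MvPolynomial.aeval (Sum.elim h g) q - MvPolynomial.aeval (Sum.elim h g') q ∈ J := by
    intro q h
    apply aeval_congr
    rintro (i | i)
    · simp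
    · exact hg i
  induction p using MvPolynomial.induction_on with
  | C a => simp
  | add p q hp hq =>
    simp only [map_add]
    have := (I * J).add_mem hp hq
    convert this using 1
    ring
  | mul_X p i hp =>
    simp only [map_mul, MvPolynomial.aeval_X]
    set a := MvPolynomial.aeval (Sum.elim f g) p with ha
    set a' := MvPolynomial.aeval (Sum.elim f' g) p with ha'
    set b := MvPolynomial.aeval (Sum.elim f g') p with hb
    set b' := MvPolynomial.aeval (Sum.elim f' g') p with hb'
    have h1 : a - b ∈ J := hJ p f
    have h2 : a' - b' ∈ J := hJ p f'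
    have h3 : a - a' ∈ I := hI p g
    have h4 : b - b' ∈ I := hI p g'
    rcases i with i | i
    · simp only [Sum.elim_inl]
      have e : (a * f i - a' * f' i) - (b * f i - b' * f' i) =
          ((a - a') - (b - b')) * f i + (f i - f' i) * (a' - b') := by ring
      rw [e]
      exact (I * J).add_mem ((I * J).mul_mem_right _ hp) (Ideal.mul_mem_mul (hf i) h2)
    · simp only [Sum.elim_inr]
      have e : (a * g i - a' * g i) - (b * g' i - b' * g' i) =
          ((a - a') - (b - b')) * g i + (b - b') * (g i - g' i) := by ring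
      rw [e]
      exact (I * J).add_mem ((I * J).mul_mem_right _ hp) (Ideal.mul_mem_mul h4 (hg i))

/-- Bookkeeping. -/
theorem mem_of (I J : Ideal A) {a b : A} (h : a - b ∈ I * J) (hb : b ∈ I) : a ∈ I := by
  have h1 : a - b ∈ I := Ideal.mul_le_left h
  have h2 := I.add_mem h1 hb
  rwa [sub_add_cancel] at h2

/-- Bookkeeping: two elements with the same difference to a third one. -/
theorem comb2 (K : Ideal A) {p q r t d : A} (h1 : (p - r) - t ∈ K) (h2 : t - d ∈ K) (h3 : (q - r) - d ∈ K) :
    p - q ∈ K := by
  have h := K.sub_mem (K.add_mem h1 h2) h3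
  have e : (p - r - t + (t - d)) - (q - r - d) = p - q := by ring
  rwa [e] at h

/-- Bookkeeping: two elements with the same difference to a third one. -/
theorem comb4 (K : Ideal A) {p q r t t' d : A} (h1 : (p - r) - t ∈ K) (h2 : t - d ∈ K) (h3 : (q - r) - t' ∈ K)
    (h4 : t' - d ∈ K) : p - q ∈ K := by
  have h := K.sub_mem (K.add_mem h1 h2) (K.add_mem h3 h4)
  have e : (p - r - t + (t - d)) - (q - r - t' + (t' - d)) = p - q := by ring
  rwa [e] at h

end Pool.Agent.helper45.AG
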