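import Pool.Agent.Results.MP_e88537_al.NilpotentLoops
import Pool.Agent.helper45.AG.Key

/-!
# Loops of polynomial maps modulo powers of an ideal

Helper file for `MP_e88537_al.AlgebraicLoops`.
-/

set_option autoImplicit false

universe u v w

namespace Pool.Agent.helper45.AG

open Pool.Agent.Results.MP_e88537_al.NilpotentLoops

/-- A loop from an inverse map. -/
theorem isLoop_of {P : Type u} [Mul P] [One P] (i : P → P) (h1 : ∀ x : P, 1 * x = x)
    (h2 : ∀ x : P, x * 1 = x) (l : ∀ x y : P, i x * (x * y) = y) (l' : ∀ x y : P, x * (i x * y) = y)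
    (r : ∀ x y : P, (y * x) * i x = y) (r' : ∀ x y : P, (y * i x) * x = y) : IsLoop P where
  one_mul := h1
  mul_one := h2
  left_bij := fun a => by
    refine Function.bijective_iff_has_inverse.mpr ⟨fun y => i a * y, fun y => l a y, fun y => l' a y⟩
  right_bij := fun a => by
    refine Function.bijective_iff_has_inverse.mpr ⟨fun y => y * i a, fun y => r a y, fun y => r' a y⟩

/-- A loop with polynomial multiplication and inversion. -/
structure PL (k : Type v) [Field k] (n : ℕ) (Q : Type u) [Mul Q] [One Q] [IsLoop Q] where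
  /-- coordinates -/
  c : Q → Fin n → k
  inj : Function.Injective c
  /-- polynomials of the multiplication -/
  m : Fin n → MvPolynomial (Fin n ⊕ Fin n) k
  /-- polynomials of the inversion -/
  s : Fin n → MvPolynomial (Fin n) k
  hm : ∀ (x y : Q) (i : Fin n), c (x * y) i = MvPolynomial.eval (Sum.elim (c x) (c y)) (m i)
  hs : ∀ (x : Q) (i : Fin n), c (ldiv x 1) i = MvPolynomial.eval (c x) (s i)

variable {k : Type v} [Field k] {n : ℕ} {Q : Type u} [Mul Q] [One Q] [IsLoop Q]

/-- Evaluation of an element of a function algebra at a point. -/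
def evA {T : Type u} (A : Subalgebra k (T → k)) (t : T) : A →ₐ[k] k :=
  (Pi.evalAlgHom k (fun _ : T => k) t).comp A.val

theorem evA_apply {T : Type u} (A : Subalgebra k (T → k)) (t : T) (a : A) :
    evA A t a = (a : T → k) t := rfl

/-- The maps `T → Q` with coordinates in `A` and value `1` at the base point. -/
structure G (D : PL k n Q) {T : Type u} (e : T) (A : Subalgebra k (T → k)) where
  /-- the map -/
  f : T → Q
  mem : ∀ i, (fun t => D.c (f t) i) ∈ A
  base : f e = 1

variable {D : PL k n Q} {T : Type u} {e : T} {A : Subalgebra k (T → k)}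

theorem G.ext' {x y : G D e A} (h : ∀ t, x.f t = y.f t) : x = y := by
  obtain ⟨f, _, _⟩ := x
  obtain ⟨g, _, _⟩ := y
  have hfg : f = g := funext h
  subst hfg
  rfl

/-- Coordinates of an element of `G`. -/
def co (x : G D e A) (i : Fin n) : A := ⟨fun t => D.c (x.f t) i, x.mem i⟩

theorem co_inj {x y : G D e A} (h : ∀ i, co x i = co y i) : x = y := by
  apply G.ext'
  intro t
  apply D.inj
  funext i
  have := congrArg (fun a : A => (a : T → k) t) (h i)
  exact this

theorem eval_aeval {σ : Type} (F : σ → A) (p : MvPolynomial σ k) (t : T) :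
    ((MvPolynomial.aeval F p : A) : T → k) t = MvPolynomial.eval (fun j => (F j : T → k) t) p := by
  have h := MvPolynomial.comp_aeval_apply (R := k) F (evA A t) p
  rw [evA_apply] at h
  rw [h]
  rfl

theorem mul_eq (x y : G D e A) (i : Fin n) :
    (fun t => D.c (x.f t * y.f t) i) =
      ((MvPolynomial.aeval (Sum.elim (co x) (co y)) (D.m i) : A) : T → k) := by
  funext t
  rw [eval_aeval, D.hm]
  congr 1
  congr 1
  funext j
  rcases j with j | j <;> rfl

theorem inv_eq (x : G D e A) (i : Fin n) :
    (fun t => D.c (ldiv (x.f t) 1) i) = ((MvPolynomial.aeval (co x) (D.s i) : A) : T → k) := by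
  funext t
  rw [eval_aeval, D.hs]
  rfl

instance instMulG : Mul (G D e A) where
  mul x y := ⟨fun t => x.f t * y.f t, fun i => by
    rw [mul_eq]; exact Subtype.mem _, by
    show x.f e * y.f e = 1
    rw [x.base, y.base, IsLoop.one_mul]⟩

instance instOneG : One (G D e A) where
  one := ⟨fun _ => 1, fun i => A.algebraMap_mem (D.c 1 i), rfl⟩

/-- Inversion on `G`. -/
noncomputable def iG (x : G D e A) : G D e A :=
  ⟨fun t => ldiv (x.f t) 1, fun i => by rw [inv_eq]; exact Subtype.mem _, by
    show ldiv (x.f e) 1 = 1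
    rw [x.base, ldiv_one]⟩

theorem mul_f (x y : G D e A) (t : T) : (x * y).f t = x.f t * y.f t := rfl

theorem one_f (t : T) : (1 : G D e A).f t = 1 := rfl

theorem iG_f (x : G D e A) (t : T) : (iG x).f t = ldiv (x.f t) 1 := rfl

theorem co_mul (x y : G D e A) (i : Fin n) :
    co (x * y) i = MvPolynomial.aeval (Sum.elim (co x) (co y)) (D.m i) :=
  Subtype.ext (mul_eq x y i)

theorem co_iG (x : G D e A) (i : Fin n) : co (iG x) i = MvPolynomial.aeval (co x) (D.s i) :=
  Subtype.ext (inv_eq x i)

section laws

variable (hip : IP Q) (hsuf : SUF Q)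
include hip hsuf

theorem gl (x y : G D e A) : iG x * (x * y) = y := G.ext' fun t => (sys_of hip hsuf).l _ _
theorem gl' (x y : G D e A) : x * (iG x * y) = y := G.ext' fun t => (sys_of hip hsuf).l' _ _
theorem gr (x y : G D e A) : (y * x) * iG x = y := G.ext' fun t => (sys_of hip hsuf).r _ _
theorem gr' (x y : G D e A) : (y * iG x) * x = y := G.ext' fun t => (sys_of hip hsuf).r' _ _

theorem isLoopG : IsLoop (G D e A) :=
  isLoop_of iG (fun x => G.ext' fun t => IsLoop.one_mul _) (fun x => G.ext' fun t => IsLoop.mul_one _)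
    (gl hip hsuf) (gl' hip hsuf) (gr hip hsuf) (gr' hip hsuf)

end laws

/-- Evaluation at a point is a homomorphism. -/
theorem ev_hom (t : T) (x y : G D e A) : (x * y).f t = x.f t * y.f t := rfl

theorem IP_G [IsLoop (G D e A)] (hip : IP Q) : IP (G D e A) := by
  intro x
  refine ⟨?_, ?_⟩
  · apply G.ext'
    intro t
    rw [map_rdiv (f := fun z : G D e A => z.f t) (ev_hom t), map_ldiv (f := fun z : G D e A => z.f t) (ev_hom t)]
    exact (hip (x.f t)).1
  · intro y
    refine ⟨?_, ?_⟩
    · apply G.ext'
      intro t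
      rw [mul_f, map_ldiv (f := fun z : G D e A => z.f t) (ev_hom t),
        map_ldiv (f := fun z : G D e A => z.f t) (ev_hom t)]
      exact ((hip (x.f t)).2 (y.f t)).1
    · apply G.ext'
      intro t
      rw [mul_f, map_rdiv (f := fun z : G D e A => z.f t) (ev_hom t),
        map_ldiv (f := fun z : G D e A => z.f t) (ev_hom t)]
      exact ((hip (x.f t)).2 (y.f t)).2

theorem SUF_G [IsLoop (G D e A)] (hsuf : SUF Q) : SUF (G D e A) := by
  refine ⟨?_, ?_⟩
  · intro a x y
    apply G.ext'
    intro t
    have h := hsuf.1 (a.f t) (x.f t) (y.f t)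
    simp only [map_isotope (f := fun z : G D e A => z.f t) (ev_hom t)]
    exact h
  · intro a x y
    apply G.ext'
    intro t
    have h := hsuf.2 (a.f t) (x.f t) (y.f t)
    simp only [map_isotope (f := fun z : G D e A => z.f t) (ev_hom t)]
    exact h

/-! ### Congruences -/

/-- Congruence of two elements of `G` modulo an ideal. -/
def rel (I : Ideal A) (x y : G D e A) : Prop := ∀ i, co x i - co y i ∈ I

theorem rel_mul (I : Ideal A) {x x' y y' : G D e A} (hx : rel I x x') (hy : rel I y y') :
    rel I (x * y) (x' * y') := by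
  intro i
  rw [co_mul, co_mul]
  apply aeval_congr
  rintro (j | j)
  · exact hx j
  · exact hy j

theorem rel_iG (I : Ideal A) {x x' : G D e A} (hx : rel I x x') : rel I (iG x) (iG x') := by
  intro i
  rw [co_iG, co_iG]
  exact aeval_congr I _ _ hx _

/-- The setoid of `rel`. -/
def st (D : PL k n Q) (e : T) (A : Subalgebra k (T → k)) (I : Ideal A) : Setoid (G D e A) where
  r := rel I
  iseqv :=
    { refl := fun x i => by rw [sub_self]; exact I.zero_mem
      symm := fun {x y} h i => by
        have := I.neg_mem (h i)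
        rwa [neg_sub] at this
      trans := fun {x y z} h h' i => by
        have := I.add_mem (h i) (h' i)
        rwa [sub_add_sub_cancel] at this }

/-- Right factor close to `1`. -/
theorem keyR (I J : Ideal A) {x x' z : G D e A} [IsLoop (G D e A)] (hx : rel I x x') (hz : rel J z 1) (i : Fin n) :
    (co (x * z) i - co (x' * z) i) - (co x i - co x' i) ∈ I * J := by
  have h := aeval_mixed I J (co x) (co x') (co z) (co (1 : G D e A)) hx hz (D.m i)
  rw [← co_mul, ← co_mul, ← co_mul, ← co_mul, IsLoop.mul_one, IsLoop.mul_one] at h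
  exact h

/-- Left factor close to `1`. -/
theorem keyL (I J : Ideal A) {x x' z : G D e A} [IsLoop (G D e A)] (hx : rel I x x') (hz : rel J z 1) (i : Fin n) :
    (co (z * x) i - co (z * x') i) - (co x i - co x' i) ∈ I * J := by
  have h := aeval_mixed J I (co z) (co (1 : G D e A)) (co x) (co x') hz hx (D.m i)
  rw [← co_mul, ← co_mul, ← co_mul, ← co_mul, IsLoop.one_mul, IsLoop.one_mul] at h
  rw [mul_comm]
  have e : (co (z * x) i - co (z * x') i) - (co x i - co x' i) =
    (co (z * x) i - co x i) - (co (z * x') i - co x' i) := by ring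
  rw [e]
  exact h

end Pool.Agent.helper45.AG
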