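import Pool.Agent.helper45.AG.Main

/-!
# Quotients of the loop of polynomial maps

Helper file for `MP_e88537_al.AlgebraicLoops`.
-/

set_option autoImplicit false

universe u v w

namespace Pool.Agent.helper45.AG

open Pool.Agent.Results.MP_e88537_al.NilpotentLoops

variable {k : Type v} [Field k] {n : ℕ} {Q : Type u} [Mul Q] [One Q] [IsLoop Q]
variable {D : PL k n Q} {T : Type u} {e : T} {A : Subalgebra k (T → k)}

/-- The loop `G` modulo an ideal. -/
def P (D : PL k n Q) (e : T) (A : Subalgebra k (T → k)) (I : Ideal A) : Type u := Quotient (st D e A I)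

/-- The class of an element. -/
def pr (I : Ideal A) (x : G D e A) : P D e A I := Quotient.mk (st D e A I) x

theorem pr_surj (I : Ideal A) : Function.Surjective (pr (D := D) (e := e) I) := by
  intro q
  obtain ⟨x, hx⟩ := Quotient.exists_rep q
  exact ⟨x, hx⟩

theorem pr_eq (I : Ideal A) {x y : G D e A} : pr I x = pr I y ↔ rel I x y :=
  ⟨fun h => Quotient.exact h, fun h => Quotient.sound (s := st D e A I) h⟩

instance instMulP (I : Ideal A) : Mul (P D e A I) where
  mul := Quotient.map₂ (fun x y => x * y) (fun _ _ hx _ _ hy => rel_mul I hx hy)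

instance instOneP (I : Ideal A) : One (P D e A I) := ⟨pr I 1⟩

/-- Inversion on the quotient. -/
noncomputable def iP (I : Ideal A) : P D e A I → P D e A I :=
  Quotient.map iG (fun _ _ hx => rel_iG I hx)

theorem pr_mul (I : Ideal A) (x y : G D e A) : pr I (x * y) = pr I x * pr I y := rfl

theorem pr_iG (I : Ideal A) (x : G D e A) : pr I (iG x) = iP I (pr I x) := rfl

theorem isLoopP (hip : IP Q) (hsuf : SUF Q) (I : Ideal A) : IsLoop (P D e A I) := by
  have hL : IsLoop (G D e A) := isLoopG hip hsuf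
  refine isLoop_of (iP I) ?_ ?_ ?_ ?_ ?_ ?_
  · intro x
    obtain ⟨x, rfl⟩ := pr_surj I x
    show pr I 1 * pr I x = _
    rw [← pr_mul, IsLoop.one_mul]
  · intro x
    obtain ⟨x, rfl⟩ := pr_surj I x
    show pr I x * pr I 1 = _
    rw [← pr_mul, IsLoop.mul_one]
  · intro x y
    obtain ⟨x, rfl⟩ := pr_surj I x
    obtain ⟨y, rfl⟩ := pr_surj I y
    rw [← pr_iG, ← pr_mul, ← pr_mul, gl hip hsuf]
  · intro x y
    obtain ⟨x, rfl⟩ := pr_surj I x
    obtain ⟨y, rfl⟩ := pr_surj I y
    rw [← pr_iG, ← pr_mul, ← pr_mul, gl' hip hsuf]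
  · intro x y
    obtain ⟨x, rfl⟩ := pr_surj I x
    obtain ⟨y, rfl⟩ := pr_surj I y
    rw [← pr_iG, ← pr_mul, ← pr_mul, gr hip hsuf]
  · intro x y
    obtain ⟨x, rfl⟩ := pr_surj I x
    obtain ⟨y, rfl⟩ := pr_surj I y
    rw [← pr_iG, ← pr_mul, ← pr_mul, gr' hip hsuf]

/-- The ideal of the functions vanishing at the base point. -/
def M (e : T) (A : Subalgebra k (T → k)) : Ideal A := RingHom.ker (evA A e)

theorem M_ne_top : M e A ≠ ⊤ := RingHom.ker_ne_top _

theorem rel_M (x y : G D e A) : rel (M e A) x y := by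
  intro i
  show evA A e _ = 0
  rw [map_sub, sub_eq_zero]
  show D.c (x.f e) i = D.c (y.f e) i
  rw [x.base, y.base]

theorem near1 [IsLoop (G D e A)] (I : Ideal A) {x : G D e A} (hx : rel I x 1) (w : G D e A) (i : Fin n) :
    (co (x * w) i - co w i) - (co x i - co (1 : G D e A) i) ∈ I * M e A := by
  have h := keyR I (M e A) hx (rel_M w 1) i
  rwa [IsLoop.one_mul] at h

theorem near2 [IsLoop (G D e A)] (I : Ideal A) {x : G D e A} (hx : rel I x 1) (w : G D e A) (i : Fin n) :
    (co (w * x) i - co w i) - (co x i - co (1 : G D e A) i) ∈ I * M e A := by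
  have h := keyL I (M e A) hx (rel_M w 1) i
  rwa [IsLoop.mul_one] at h

theorem near1' [IsLoop (G D e A)] (I : Ideal A) {x : G D e A} (hx : rel I x 1) (w : G D e A) :
    rel I (x * w) w := fun i => mem_of I (M e A) (near1 I hx w i) (hx i)

theorem near2' [IsLoop (G D e A)] (I : Ideal A) {x : G D e A} (hx : rel I x 1) (w : G D e A) :
    rel I (w * x) w := fun i => mem_of I (M e A) (near2 I hx w i) (hx i)

/-- Elements congruent to `1` modulo `I` are nuclear modulo `I * M`. -/
theorem nuc1 [IsLoop (G D e A)] (I : Ideal A) {x : G D e A} (hx : rel I x 1) (y z : G D e A) :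
    rel (I * M e A) ((x * y) * z) (x * (y * z)) := fun i =>
  comb2 (I * M e A) (keyR I (M e A) (near1' I hx y) (rel_M z 1) i) (near1 I hx y i) (near1 I hx (y * z) i)

theorem nuc2 [IsLoop (G D e A)] (I : Ideal A) {x : G D e A} (hx : rel I x 1) (y z : G D e A) :
    rel (I * M e A) ((y * x) * z) (y * (x * z)) := fun i =>
  comb4 (I * M e A) (keyR I (M e A) (near2' I hx y) (rel_M z 1) i) (near2 I hx y i)
    (keyL I (M e A) (near1' I hx z) (rel_M y 1) i) (near1 I hx z i)

theorem nuc3 [IsLoop (G D e A)] (I : Ideal A) {x : G D e A} (hx : rel I x 1) (y z : G D e A) :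
    rel (I * M e A) ((y * z) * x) (y * (z * x)) := fun i => by
  have h := comb2 (I * M e A) (keyL I (M e A) (near2' I hx z) (rel_M y 1) i) (near2 I hx z i)
    (near2 I hx (y * z) i)
  have h' := (I * M e A).neg_mem h
  rwa [neg_sub] at h'

/-- Elements congruent to `1` modulo `M ^ j` are in the nucleus modulo `M ^ (j + 1)`. -/
theorem nuc_of (hip : IP Q) (hsuf : SUF Q) (j : ℕ) (x : G D e A) (hx : rel (M e A ^ j) x 1) :
    @InNucleus (P D e A (M e A ^ (j + 1))) _ (pr _ x) := by
  have hL : IsLoop (G D e A) := isLoopG hip hsuf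
  intro y z
  obtain ⟨y, rfl⟩ := pr_surj _ y
  obtain ⟨z, rfl⟩ := pr_surj _ z
  refine ⟨?_, ?_, ?_⟩
  · rw [← pr_mul, ← pr_mul, ← pr_mul, ← pr_mul, pr_eq, pow_succ]
    exact nuc1 _ hx y z
  · rw [← pr_mul, ← pr_mul, ← pr_mul, ← pr_mul, pr_eq, pow_succ]
    exact nuc2 _ hx y z
  · rw [← pr_mul, ← pr_mul, ← pr_mul, ← pr_mul, pr_eq, pow_succ]
    exact nuc3 _ hx y z

/-- The loop `G` is Moufang, if the powers of the ideal `M` have trivial intersection. -/
theorem moufang_G (hip : IP Q) (hsuf : SUF Q) (hM : ⨅ j : ℕ, M e A ^ j = ⊥) : Moufang (G D e A) := by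
  have hL : IsLoop (G D e A) := isLoopG hip hsuf
  have hP : ∀ j : ℕ, IsLoop (P D e A (M e A ^ (j + 1))) := fun j => isLoopP hip hsuf _
  refine Pool.Agent.Results.MP_e88537_al.NilpotentLoops.result (G D e A) (IP_G hip) (SUF_G hsuf) (fun j => P D e A (M e A ^ (j + 1)))
    (fun j => pr _) ?_ ?_ ?_ ?_ ?_ ?_
  · intro j x y
    exact pr_mul _ x y
  · intro j
    exact pr_surj _
  · intro j x y h
    rw [pr_eq] at h ⊢
    intro i
    exact Ideal.pow_le_pow_right (Nat.le_succ _) (h i)
  · intro j x h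
    apply nuc_of hip hsuf
    exact (pr_eq _).1 h
  · intro x y h
    apply co_inj
    intro i
    have : co x i - co y i ∈ ⨅ j : ℕ, M e A ^ j := by
      rw [Ideal.mem_iInf]
      intro j
      have h' := (pr_eq _).1 (h j) i
      exact Ideal.pow_le_pow_right (Nat.le_succ _) h'
    rw [hM] at this
    exact sub_eq_zero.mp this
  · intro x y z
    obtain ⟨x, rfl⟩ := pr_surj _ x
    obtain ⟨y, rfl⟩ := pr_surj _ y
    obtain ⟨z, rfl⟩ := pr_surj _ z
    simp only [← pr_mul]
    rw [pr_eq, zero_add, pow_one]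
    exact rel_M _ _

end Pool.Agent.helper45.AG
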